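import Mathlib

set_option autoImplicit false

open Polynomial

namespace Pool.Agent.V113.IntK

universe u v w

/-- `∏_{i<j≤m} (X^j - X^i)`. -/
noncomputable def hpoly (m : ℕ) : ℤ[X] :=
  ∏ i : Fin (m + 1), ∏ j ∈ Finset.Ioi i, ((X : ℤ[X]) ^ (j : ℕ) - X ^ (i : ℕ))

theorem hpoly_monic (m : ℕ) : (hpoly m).Monic := by
  unfold hpoly
  apply monic_prod_of_monic
  intro i _
  apply monic_prod_of_monic
  intro j hj
  rw [Finset.mem_Ioi] at hj
  apply monic_X_pow_sub
  rw [degree_X_pow]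
  exact_mod_cast hj

theorem aeval_hpoly {D : Type u} [CommRing D] (m : ℕ) (t : D) :
    aeval t (hpoly m) = (Matrix.vandermonde (fun i : Fin (m + 1) => t ^ (i : ℕ))).det := by
  rw [Matrix.det_vandermonde, hpoly]
  simp [map_prod]

theorem vandermonde_mem {D : Type u} {K : Type v} [CommRing D] [Field K] [Algebra D K]
    (f : K[X]) (hf : ∀ d : D, f.eval (algebraMap D K d) ∈ (algebraMap D K).range)
    (m : ℕ) (hm : f.natDegree ≤ m) (w : Fin (m + 1) → D) (j : ℕ) :
    algebraMap D K (Matrix.vandermonde w).det * f.coeff j ∈ (algebraMap D K).range := by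
  classical
  by_cases hj : m < j
  · rw [coeff_eq_zero_of_natDegree_lt (lt_of_le_of_lt hm hj), mul_zero]
    exact zero_mem _
  push Not at hj
  set V : Matrix (Fin (m + 1)) (Fin (m + 1)) D := Matrix.vandermonde w with hV
  set V' : Matrix (Fin (m + 1)) (Fin (m + 1)) K := V.map (algebraMap D K) with hV'
  set c : Fin (m + 1) → K := fun i => f.coeff i with hc
  have h1 : V'.mulVec c = fun i => f.eval (algebraMap D K (w i)) := by
    ext i
    rw [eval_eq_sum_range' (lt_of_le_of_lt hm (Nat.lt_succ_self m)), Finset.sum_range]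
    simp only [Matrix.mulVec, dotProduct, hV', hV, Matrix.map_apply, Matrix.vandermonde_apply,
      map_pow, hc]
    exact Finset.sum_congr rfl (fun _ _ => mul_comm _ _)
  have h2 : V'.adjugate.mulVec (V'.mulVec c) = V'.det • c := by
    rw [Matrix.mulVec_mulVec, Matrix.adjugate_mul, Matrix.smul_mulVec, Matrix.one_mulVec]
  have h3 : algebraMap D K V.det = V'.det := by
    rw [hV', ← RingHom.mapMatrix_apply, RingHom.map_det]
  have h4 : V'.adjugate = V.adjugate.map (algebraMap D K) := by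
    rw [hV', ← RingHom.mapMatrix_apply, ← RingHom.mapMatrix_apply, RingHom.map_adjugate]
  have h5 := congrFun h2 ⟨j, Nat.lt_succ_of_le hj⟩
  rw [h1, h4] at h5
  simp only [Matrix.mulVec, dotProduct, Matrix.map_apply, Pi.smul_apply, smul_eq_mul, hc] at h5
  rw [h3, ← h5]
  refine sum_mem (fun i _ => mul_mem ⟨_, rfl⟩ (hf _))

theorem hom_aeval {S : Type u} {T : Type v} [CommRing S] [CommRing T] {iS : Algebra ℤ S}
    {iT : Algebra ℤ T} (f : S →+* T) (x : S)
    (p : ℤ[X]) : f (aeval x p) = aeval (f x) p := by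
  rw [aeval_def, aeval_def, hom_eval₂]
  congr 1
  exact RingHom.ext_int _ _

/-- Universal monic polynomial: if `n` elements `c i` of a ring satisfy `H(c i) = 0` and `y` is a
root of `Y^n + ∑ c i Y^i`, then `φ(y) = 0`, `φ` depending only on `H` and `n`. -/
theorem exists_universal (H : ℤ[X]) (hH : H.Monic) (n : ℕ) :
    ∃ φ : ℤ[X], φ.Monic ∧ 0 < φ.natDegree ∧
      ∀ (S : Type u) [CommRing S] (c : Fin n → S) (y : S), (∀ i, aeval (c i) H = 0) →
        y ^ n + ∑ i : Fin n, c i * y ^ (i : ℕ) = 0 → aeval y φ = 0 := by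
  classical
  let P := MvPolynomial (Option (Fin n)) ℤ
  let C' : Fin n → P := fun i => MvPolynomial.X (some i)
  let Y' : P := MvPolynomial.X none
  let I : Ideal P := Ideal.span (Set.range (fun i => aeval (C' i) H) ∪
    {Y' ^ n + ∑ i : Fin n, C' i * Y' ^ (i : ℕ)})
  let U := P ⧸ I
  let q : P →+* U := Ideal.Quotient.mk I
  have hc : ∀ i, IsIntegral ℤ (q (C' i)) := by
    intro i
    refine ⟨H, hH, ?_⟩
    have h1 : q (aeval (C' i) H) = 0 :=
      Ideal.Quotient.eq_zero_iff_mem.2 (Ideal.subset_span (Or.inl ⟨i, rfl⟩))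
    exact (hom_aeval q (C' i) H).symm.trans h1
  have hy0 : q Y' ^ n + ∑ i : Fin n, q (C' i) * q Y' ^ (i : ℕ) = 0 := by
    have h1 : q (Y' ^ n + ∑ i : Fin n, C' i * Y' ^ (i : ℕ)) = 0 :=
      Ideal.Quotient.eq_zero_iff_mem.2 (Ideal.subset_span (Or.inr rfl))
    rw [map_add, map_pow, map_sum] at h1
    simpa using h1
  have hy1 : IsIntegral (integralClosure ℤ U) (q Y') := by
    let cc : Fin n → integralClosure ℤ U := fun i => ⟨q (C' i), hc i⟩
    refine ⟨X ^ n + ∑ i : Fin n, C (cc i) * X ^ (i : ℕ), ?_, ?_⟩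
    · apply monic_X_pow_add
      refine lt_of_le_of_lt (degree_sum_le _ _) ?_
      refine (Finset.sup_lt_iff (WithBot.bot_lt_coe n)).2 ?_
      intro i _
      refine lt_of_le_of_lt (degree_C_mul_X_pow_le _ _) ?_
      exact WithBot.coe_lt_coe.2 i.2
    · rw [eval₂_add, eval₂_finsetSum, eval₂_pow, eval₂_X]
      simp only [eval₂_mul, eval₂_C, eval₂_pow, eval₂_X]
      exact hy0
  have hy : IsIntegral ℤ (q Y') := isIntegral_trans (q Y') hy1
  obtain ⟨φ, hφ, hφ0⟩ := hy
  refine ⟨X * φ, monic_X.mul hφ, ?_, ?_⟩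
  · rw [natDegree_mul X_ne_zero hφ.ne_zero, natDegree_X]
    omega
  intro S _ c y hc' hy'
  let ψ : P →+* S := MvPolynomial.eval₂Hom (Int.castRingHom S) (fun o => o.elim y c)
  have hψC : ∀ i, ψ (C' i) = c i := fun i => MvPolynomial.eval₂Hom_X' _ _ _
  have hψY : ψ Y' = y := MvPolynomial.eval₂Hom_X' _ _ _
  have hI : ∀ p ∈ I, ψ p = 0 := by
    intro p hp
    have : I ≤ RingHom.ker ψ := by
      rw [Ideal.span_le]
      rintro p (⟨i, rfl⟩ | rfl)
      · change ψ (aeval (C' i) H) = 0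
        have h5 := hc' i
        rw [← hψC i] at h5
        exact (hom_aeval ψ (C' i) H).trans h5
      · change ψ _ = 0
        rw [map_add, map_pow, map_sum, hψY]
        simp only [map_mul, map_pow, hψC, hψY]
        exact hy'
    exact this hp
  let ψ' : U →+* S := Ideal.Quotient.lift I ψ hI
  have h1 : ψ' (q Y') = y := by
    change ψ' (Ideal.Quotient.mk I Y') = y
    rw [Ideal.Quotient.lift_mk, hψY]
  rw [map_mul, aeval_X]
  have h2 : ψ' (aeval (q Y') φ) = aeval y φ :=
    (hom_aeval (iT := inferInstance) ψ' (q Y') φ).trans (congrArg (fun z => aeval z φ) h1)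
  have h3 : aeval (q Y') φ = 0 := hφ0
  rw [← h2, h3, map_zero, mul_zero]

theorem aeval_X_left_eq_map' {D : Type u} [CommRing D] (p : ℤ[X]) :
    aeval (X : D[X]) p = p.map (Int.castRingHom D) := by
  rw [aeval_def, ← eval₂_C_X (p := p.map (Int.castRingHom D)), eval₂_map]
  congr 1

theorem coeff_modByMonic_mem {D : Type u} [CommRing D] (H φ : ℤ[X]) (n : ℕ)
    (hφ : ∀ (S : Type u) [CommRing S] (c : Fin n → S) (y : S), (∀ i, aeval (c i) H = 0) →
        y ^ n + ∑ i : Fin n, c i * y ^ (i : ℕ) = 0 → aeval y φ = 0)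
    (b : Ideal D) (hb : ∀ t : D, aeval t H ∈ b) (χ : D[X]) (hχ : χ.Monic)
    (hn : χ.natDegree = n) (i : ℕ) :
    (φ.map (Int.castRingHom D) %ₘ χ).coeff i ∈ b := by
  let q : D →+* D ⧸ b := Ideal.Quotient.mk b
  let χ' := χ.map q
  let r : D[X] →+* AdjoinRoot χ' := (AdjoinRoot.mk χ').comp (mapRingHom q)
  have hr : r χ = 0 := AdjoinRoot.mk_self
  have h1 := hχ.as_sum
  rw [hn, Finset.sum_range] at h1
  rw [h1, map_add, map_pow, map_sum] at hr
  simp only [map_mul, map_pow] at hr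
  have h2 := hφ (AdjoinRoot χ') (fun i => r (C (χ.coeff i))) (r X) ?_ hr
  · have h3 : r (φ.map (Int.castRingHom D)) = 0 := by
      rw [← h2]
      refine Eq.trans ?_ (hom_aeval (iS := inferInstance) r X φ)
      exact congrArg r (aeval_X_left_eq_map' φ).symm
    have h4 : χ' ∣ (φ.map (Int.castRingHom D)).map q := AdjoinRoot.mk_eq_zero.1 h3
    have h5 := (modByMonic_eq_zero_iff_dvd (hχ.map q)).2 h4
    rw [← map_modByMonic q hχ] at h5
    have h6 := congrArg (fun p => p.coeff i) h5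
    simp only [coeff_map, coeff_zero] at h6
    exact Ideal.Quotient.eq_zero_iff_mem.1 h6
  · intro j
    have h3 : r (C (aeval (χ.coeff j) H)) = aeval (r (C (χ.coeff j))) H :=
      hom_aeval (r.comp C) (χ.coeff j) H
    refine h3.symm.trans ?_
    change AdjoinRoot.mk χ' ((C (aeval (χ.coeff j) H)).map q) = 0
    rw [map_C, Ideal.Quotient.eq_zero_iff_mem.2 (hb _), C_0, map_zero]

end Pool.Agent.V113.IntK
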