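import Pool.Agent.V113.IntK.Defs
import Pool.Agent.V113.IntK.Uni

set_option autoImplicit false

open Polynomial TensorProduct

namespace Pool.Agent.V113.IntK

universe u v w

section general

variable {D : Type u} {K : Type v} {B : Type w} [CommRing D] [IsDomain D] [IsIntegrallyClosed D]
  [Field K] [Algebra D K] [IsFractionRing D K] [Ring B] [Algebra K B] [Algebra D B]
  [IsScalarTower D K B] [FiniteDimensional K B]

/-- The conductor of `f` into `D[X]`. -/
def cond (D : Type u) {K : Type v} [CommRing D] [Field K] [Algebra D K] (f : K[X]) : Ideal D where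
  carrier := {s | ∀ i, algebraMap D K s * f.coeff i ∈ (algebraMap D K).range}
  add_mem' := by
    intro s t hs ht i
    rw [map_add, add_mul]
    exact add_mem (hs i) (ht i)
  zero_mem' := by
    intro i
    rw [map_zero, zero_mul]
    exact zero_mem _
  smul_mem' := by
    intro c s hs i
    rw [smul_eq_mul, map_mul, mul_assoc]
    exact mul_mem ⟨_, rfl⟩ (hs i)

theorem exists_char (b : B) (hb : IsIntegral D b) :
    ∃ χ : D[X], χ.Monic ∧ χ.natDegree = Module.finrank K B ∧ aeval b χ = 0 := by
  obtain ⟨h, hh, hh0⟩ := hb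
  have hbK : IsIntegral K b := IsIntegral.of_finite K b
  have h1 : minpoly K b ∣ h.map (algebraMap D K) := by
    apply minpoly.dvd
    rw [aeval_map_algebraMap]
    exact hh0
  obtain ⟨g, hg⟩ := IsIntegrallyClosed.eq_map_mul_C_of_dvd K hh h1
  rw [(minpoly.monic hbK).leadingCoeff, C_1, mul_one] at hg
  have hinj := IsFractionRing.injective D K
  have hgm : g.Monic := by
    apply monic_of_injective hinj
    rw [hg]
    exact minpoly.monic hbK
  have hgd : g.natDegree ≤ Module.finrank K B := by
    rw [← natDegree_map_eq_of_injective hinj g, hg]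
    have h2 : minpoly K b ∣ (LinearMap.mulLeft K b).charpoly := by
      apply minpoly.dvd
      have h3 : aeval (LinearMap.mulLeft K b) (LinearMap.mulLeft K b).charpoly = 0 :=
        LinearMap.aeval_self_charpoly _
      have h4 : aeval (Algebra.lmul K B b) (LinearMap.mulLeft K b).charpoly = 0 := h3
      rw [aeval_algHom_apply] at h4
      have h5 := LinearMap.congr_fun h4 (1 : B)
      simpa using h5
    refine (natDegree_le_of_dvd h2 (LinearMap.charpoly_monic _).ne_zero).trans ?_
    rw [LinearMap.charpoly_natDegree]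
  refine ⟨X ^ (Module.finrank K B - g.natDegree) * g, (monic_X_pow _).mul hgm, ?_, ?_⟩
  · rw [(monic_X_pow _).natDegree_mul hgm, natDegree_X_pow]
    omega
  · rw [map_mul, show aeval b g = 0 by
      rw [← aeval_map_algebraMap K b g, hg, minpoly.aeval], mul_zero]

theorem key (A₀ : Subalgebra D B) (f : K[X]) (hint : ∀ a ∈ A₀, IsIntegral D (aeval a f))
    (hf : ∀ d : D, f.eval (algebraMap D K d) ∈ (algebraMap D K).range) :
    ∃ φ : ℤ[X], φ.Monic ∧ 0 < φ.natDegree ∧
      ∀ a ∈ A₀, aeval (aeval a f) (φ.map (Int.castRingHom D)) ∈ A₀ := by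
  classical
  set n := Module.finrank K B with hn
  set m := f.natDegree with hm
  set H : ℤ[X] := hpoly m ^ n with hH
  obtain ⟨φ, hφ, hφ1, hφ2⟩ := exists_universal.{u} H ((hpoly_monic m).pow n) n
  refine ⟨φ, hφ, hφ1, ?_⟩
  intro a ha
  set b := aeval a f with hb
  obtain ⟨χ, hχ, hχn, hχ0⟩ := exists_char (K := K) b (hint a ha)
  have hcond : ∀ t : D, aeval t H ∈ cond D f ^ n := by
    intro t
    rw [hH, map_pow]
    apply Ideal.pow_mem_pow
    intro i
    rw [aeval_hpoly]
    exact vandermonde_mem f hf m le_rfl _ i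
  have hcoef := fun i => coeff_modByMonic_mem H φ n hφ2 (cond D f ^ n) hcond χ hχ hχn i
  set ρ := φ.map (Int.castRingHom D) %ₘ χ with hρ
  have hsmul : ∀ s ∈ cond D f, s • b ∈ A₀ := by
    intro s hs
    have h1 : C (algebraMap D K s) * f ∈ lifts (algebraMap D K) := by
      rw [lifts_iff_coeff_lifts]
      intro i
      rw [coeff_C_mul]
      exact hs i
    obtain ⟨g, hg⟩ := (mem_lifts _).1 h1
    have h2 : s • b = aeval a g := by
      rw [← aeval_map_algebraMap K a g, hg, map_mul, aeval_C, ← IsScalarTower.algebraMap_apply,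
        Algebra.smul_def]
    rw [h2]
    exact Algebra.adjoin_le (Set.singleton_subset_iff.2 ha) (aeval_mem_adjoin_singleton D a)
  have hpow : ∀ k : ℕ, ∀ s ∈ cond D f ^ k, s • b ^ k ∈ A₀ := by
    intro k
    induction k with
    | zero =>
      intro s _
      rw [pow_zero, ← Algebra.algebraMap_eq_smul_one]
      exact algebraMap_mem _ _
    | succ k ih =>
      intro s hs
      rw [pow_succ] at hs
      refine Submodule.mul_induction_on hs ?_ ?_
      · intro x hx y hy
        have h3 : (x * y) • b ^ (k + 1) = (x • b ^ k) * (y • b) := by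
          rw [smul_mul_smul_comm, ← pow_succ]
        rw [h3]
        exact mul_mem (ih x hx) (hsmul y hy)
      · intro x y hx hy
        rw [add_smul]
        exact add_mem hx hy
  have h1 : aeval b (φ.map (Int.castRingHom D)) = aeval b ρ := by
    conv_lhs => rw [← modByMonic_add_div (φ.map (Int.castRingHom D)) χ]
    rw [map_add, map_mul, hχ0, zero_mul, add_zero]
  rw [h1, aeval_eq_sum_range]
  refine sum_mem (fun i hi => ?_)
  by_cases hin : i ≤ n
  · exact hpow i _ (Ideal.pow_le_pow_right hin (hcoef i))
  · have : ρ.coeff i = 0 := by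
      apply coeff_eq_zero_of_degree_lt
      have h2 := degree_modByMonic_lt (φ.map (Int.castRingHom D)) hχ
      refine lt_trans h2 ?_
      rw [degree_eq_natDegree hχ.ne_zero, hχn]
      exact_mod_cast not_le.1 hin
    rw [this, zero_smul]
    exact zero_mem _

end general

section tensor

variable (D : Type u) (K : Type v) (A : Type w) [CommRing D] [IsDomain D]
  [Field K] [Algebra D K] [IsFractionRing D K] [Ring A] [Algebra D A] [Module.IsTorsionFree D A]

theorem inc_injective : Function.Injective (inc D K A) := by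
  rw [injective_iff_map_eq_zero]
  intro a ha
  have h1 : (TensorProduct.mk D K A 1) a = 0 := ha
  have h2 : IsLocalizedModule (nonZeroDivisors D) (TensorProduct.mk D K A 1) :=
    (isLocalizedModule_iff_isBaseChange (nonZeroDivisors D) K _).2
      (TensorProduct.isBaseChange D A K)
  rw [IsLocalizedModule.eq_zero_iff (nonZeroDivisors D)] at h1
  obtain ⟨c, hc⟩ := h1
  have hc' : (c : D) • a = 0 := hc
  exact (smul_eq_zero_iff_right (nonZeroDivisors.coe_ne_zero c)).1 hc'

theorem tensor_nontrivial [Nontrivial A] : Nontrivial (K ⊗[D] A) :=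
  (inc_injective D K A).nontrivial

end tensor

theorem eval_mem_of_mem (D : Type u) (K : Type v) (A : Type w) [CommRing D] [IsDomain D]
    [IsIntegrallyClosed D]
    [Field K] [Algebra D K] [IsFractionRing D K] [Ring A] [Nontrivial A] [Algebra D A]
    [Module.IsTorsionFree D A]
    {f : K[X]} (hf : f ∈ IntKPrime D K A) (d : D) :
    f.eval (algebraMap D K d) ∈ (algebraMap D K).range := by
  have := tensor_nontrivial D K A
  have h1 : IsIntegral D (aeval (inc D K A (algebraMap D A d)) f) := hf _
  rw [AlgHom.commutes, IsScalarTower.algebraMap_apply D K (K ⊗[D] A), aeval_algebraMap_apply,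
    isIntegral_algebraMap_iff (algebraMap K (K ⊗[D] A)).injective] at h1
  rw [coe_aeval_eq_eval] at h1
  obtain ⟨y, hy⟩ := IsIntegrallyClosed.isIntegral_iff.1 h1
  exact ⟨y, hy⟩

theorem mem_intK_of (D : Type u) (K : Type v) (A : Type w) [CommRing D] [IsDomain D]
    [IsIntegrallyClosed D]
    [Field K] [Algebra D K] [IsFractionRing D K] [Ring A] [Nontrivial A] [Algebra D A]
    [Module.Finite D A]
    [Module.IsTorsionFree D A]
    {f : K[X]} (hf : f ∈ IntKPrime D K A) : IsIntegral (IntK D K A) f := by
  obtain ⟨φ, hφ, hφ1, hφ2⟩ := key (K := K) (inc D K A).range f (by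
    rintro _ ⟨a, rfl⟩
    exact hf a) (eval_mem_of_mem D K A hf)
  have hg : aeval f (φ.map (Int.castRingHom D)) ∈ IntK D K A := by
    intro a
    have h1 := hφ2 (inc D K A a) ⟨a, rfl⟩
    have h2 : aeval (inc D K A a) (aeval f (φ.map (Int.castRingHom D))) =
        aeval (aeval (inc D K A a) f) (φ.map (Int.castRingHom D)) := by
      rw [← AlgHom.restrictScalars_apply D (aeval (inc D K A a)) (aeval f _),
        ← aeval_algHom_apply]
      rfl
    rw [h2]
    exact h1
  refine ⟨φ.map (Int.castRingHom (IntK D K A)) - C ⟨_, hg⟩, ?_, ?_⟩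
  · apply (hφ.map _).sub_of_left
    refine lt_of_le_of_lt degree_C_le ?_
    rw [hφ.degree_map, ← natDegree_pos_iff_degree_pos]
    exact hφ1
  · rw [eval₂_sub, eval₂_C, eval₂_map]
    change _ - aeval f (φ.map (Int.castRingHom D)) = 0
    rw [aeval_def, eval₂_map, sub_eq_zero]
    congr 1
    exact RingHom.ext_int _ _

theorem integral_of_mem (D : Type u) (K : Type v) (A : Type w) [CommRing D] [IsDomain D]
    [Field K] [Algebra D K] [Ring A] [Algebra D A]
    [Module.Finite D A]
    {f : K[X]} (hf : IsIntegral (IntK D K A) f) : f ∈ IntKPrime D K A := by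
  intro a
  change IsIntegral D _
  let ev : K[X] →ₐ[D] K ⊗[D] A := (aeval (inc D K A a)).restrictScalars D
  let E := K[X] ⧸ RingHom.ker ev
  let ι : E →ₐ[D] K ⊗[D] A := Ideal.kerLiftAlg ev
  have hι : Function.Injective ι := Ideal.kerLiftAlg_injective ev
  let q : K[X] →ₐ[D] E := Ideal.Quotient.mkₐ D (RingHom.ker ev)
  have hιq : ∀ p, ι (q p) = ev p := fun p => Ideal.kerLiftAlg_mk ev p
  have h1 : ∀ c : IntK D K A, IsIntegral D (q c) := by
    intro c
    rw [← isIntegral_algHom_iff ι hι, hιq]
    obtain ⟨a', ha'⟩ := c.2 a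
    have h2 : ev c = inc D K A a' := ha'.symm
    rw [h2]
    exact (IsIntegral.of_finite D a').map (inc D K A)
  have h2 : IsIntegral D (q f) := by
    obtain ⟨p, hp, hp0⟩ := hf
    let r : IntK D K A →+* integralClosure D E :=
      ((q : K[X] →+* E).comp (IntK D K A).val.toRingHom).codRestrict
        (integralClosure D E) h1
    apply isIntegral_trans (A := integralClosure D E)
    refine ⟨p.map r, hp.map r, ?_⟩
    rw [eval₂_map]
    have h3 := congrArg q hp0
    rw [map_zero] at h3
    rw [← h3, ← AlgHom.coe_toRingHom, hom_eval₂]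
    rfl
  have h3 := h2.map ι
  rw [hιq] at h3
  exact h3

/-- The integral closure of `Int_K(A)` in `K(X)` is `Int_K(A, A')`. -/
theorem main (D : Type u) (K : Type v) (A : Type w) [CommRing D] [IsDomain D]
    [IsIntegrallyClosed D]
    [Field K] [Algebra D K] [IsFractionRing D K] [Ring A] [Nontrivial A] [Algebra D A]
    [Module.Finite D A]
    [Module.IsTorsionFree D A] (g : RatFunc K) :
    IsIntegral (IntK D K A) g ↔ ∃ f ∈ IntKPrime D K A, algebraMap K[X] (RatFunc K) f = g := by
  have hinj : Function.Injective (algebraMap K[X] (RatFunc K)) :=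
    IsFractionRing.injective K[X] (RatFunc K)
  constructor
  · intro h
    have h1 : IsIntegral K[X] g := by
      obtain ⟨p, hp, hp0⟩ := h
      refine ⟨p.map (algebraMap (IntK D K A) K[X]), hp.map _, ?_⟩
      rw [eval₂_map]
      exact hp0
    obtain ⟨f, rfl⟩ := IsIntegrallyClosed.isIntegral_iff.1 h1
    refine ⟨f, ?_, rfl⟩
    rw [isIntegral_algebraMap_iff hinj] at h
    exact integral_of_mem D K A h
  · rintro ⟨f, hf, rfl⟩
    rw [isIntegral_algebraMap_iff hinj]
    exact mem_intK_of D K A hf

end Pool.Agent.V113.IntK
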