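import Mathlib

/-!
# Integer-valued polynomials on algebras: definitions

`D` is a domain with fraction field `K`, `A` is a `D`-algebra (not necessarily commutative) and
`B = K ⊗[D] A`, in which `A` sits through `a ↦ 1 ⊗ a`.
-/

set_option autoImplicit false

open Polynomial TensorProduct

namespace Pool.Agent.V113.IntK

universe u v w

variable (D : Type u) (K : Type v) (A : Type w) [CommRing D] [Field K] [Algebra D K] [Ring A]
  [Algebra D A]

/-- The canonical map `A → K ⊗[D] A`, `a ↦ 1 ⊗ a`. -/
abbrev inc : A →ₐ[D] K ⊗[D] A := Algebra.TensorProduct.includeRight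

/-- `Int_K(A) = {f ∈ K[X] : f(A) ⊆ A}`, a `D`-subalgebra of `K[X]`; the values are computed in
`K ⊗[D] A`. -/
def IntK : Subalgebra D K[X] where
  carrier := {f | ∀ a : A, aeval (inc D K A a) f ∈ (inc D K A).range}
  mul_mem' := by
    intro f g hf hg a
    rw [map_mul]
    exact mul_mem (hf a) (hg a)
  add_mem' := by
    intro f g hf hg a
    rw [map_add]
    exact add_mem (hf a) (hg a)
  algebraMap_mem' := by
    intro d a
    rw [IsScalarTower.algebraMap_apply D K K[X], AlgHom.commutes,
      ← IsScalarTower.algebraMap_apply D K (K ⊗[D] A)]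
    exact algebraMap_mem _ d

/-- `A' = {b ∈ K ⊗ A : b integral over D}`. -/
def APrime : Set (K ⊗[D] A) := {b | IsIntegral D b}

/-- `Int_K(A, A') = {f ∈ K[X] : f(A) ⊆ A'}`. -/
def IntKPrime : Set K[X] := {f | ∀ a : A, aeval (inc D K A a) f ∈ APrime D K A}

end Pool.Agent.V113.IntK
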