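import Pool.Agent.V113.IntK.Main

set_option autoImplicit false

open Polynomial TensorProduct

namespace Pool.Agent.V113.IntK

universe u v w

theorem intK_subset (D : Type u) (K : Type v) (A : Type w) [CommRing D] [Field K] [Algebra D K]
    [Ring A] [Algebra D A] [Module.Finite D A] {f : K[X]} (hf : f ∈ IntK D K A) :
    f ∈ IntKPrime D K A := by
  intro a
  obtain ⟨a', ha'⟩ := hf a
  change IsIntegral D _
  rw [← ha']
  exact (IsIntegral.of_finite D a').map (inc D K A)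

/-- `N ∣ Δ * a` and `Δ` monic imply `N ∣ a` in `ℤ[X]`. -/
theorem dvd_of_monic {Δ a : ℤ[X]} (hΔ : Δ.Monic) {N : ℤ} (h : C N ∣ Δ * a) : C N ∣ a := by
  obtain ⟨q, hq⟩ := h
  rw [C_dvd_iff_dvd_coeff]
  let π : ℤ →+* ℤ ⧸ Ideal.span {N} := Ideal.Quotient.mk _
  have h1 : (Δ.map π) * (a.map π) = 0 := by
    rw [← Polynomial.map_mul, hq, Polynomial.map_mul, map_C,
      Ideal.Quotient.eq_zero_iff_mem.2 (Ideal.mem_span_singleton_self N), C_0, zero_mul]
  have h2 : a.map π = 0 := ((hΔ.map π).mul_right_eq_zero_iff).1 h1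
  intro i
  have h3 := congrArg (fun p => p.coeff i) h2
  simp only [coeff_map, coeff_zero] at h3
  exact Ideal.mem_span_singleton.1 (Ideal.Quotient.eq_zero_iff_mem.1 h3)

theorem int_ZX (K : Type v) [Field K] [Algebra ℤ[X] K] [IsFractionRing ℤ[X] K] (f : K[X])
    (hf : ∀ d : ℤ[X], f.eval (algebraMap ℤ[X] K d) ∈ (algebraMap ℤ[X] K).range) :
    f ∈ lifts (algebraMap ℤ[X] K) := by
  rw [lifts_iff_coeff_lifts]
  intro j
  have hinj := IsFractionRing.injective ℤ[X] K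
  obtain ⟨a, ha⟩ := vandermonde_mem f hf f.natDegree le_rfl (fun i => ((i : ℕ) : ℤ[X])) j
  obtain ⟨b, hb⟩ := vandermonde_mem f hf f.natDegree le_rfl (fun i => (X : ℤ[X]) ^ (i : ℕ)) j
  set N : ℤ := ∏ i : Fin (f.natDegree + 1), ∏ j ∈ Finset.Ioi i, ((j : ℤ) - (i : ℤ)) with hN
  have h1 : (Matrix.vandermonde (fun i : Fin (f.natDegree + 1) => ((i : ℕ) : ℤ[X]))).det = C N := by
    rw [Matrix.det_vandermonde, hN]
    simp [map_prod]
  have hN0 : N ≠ 0 := by
    rw [hN, Finset.prod_ne_zero_iff]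
    intro i _
    rw [Finset.prod_ne_zero_iff]
    intro k hk
    rw [Finset.mem_Ioi] at hk
    have h2 : (i : ℕ) < (k : ℕ) := hk
    omega
  rw [h1] at ha
  set Δ : ℤ[X] := (Matrix.vandermonde (fun i : Fin (f.natDegree + 1) => (X : ℤ[X]) ^ (i : ℕ))).det
    with hΔ
  have hΔm : Δ.Monic := by
    rw [hΔ, Matrix.det_vandermonde]
    exact hpoly_monic f.natDegree
  have h2 : Δ * a = C N * b := by
    apply hinj
    rw [map_mul, map_mul, ha, hb]
    ring
  obtain ⟨a', ha'⟩ := dvd_of_monic hΔm ⟨b, h2⟩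
  refine ⟨a', ?_⟩
  have hCN : algebraMap ℤ[X] K (C N) ≠ 0 := by
    rw [Ne, map_eq_zero_iff _ hinj, C_eq_zero]
    exact hN0
  rw [ha', map_mul] at ha
  exact mul_left_cancel₀ hCN ha

/-- The algebra `ℤ[t][Y]/(Y² - t³)`. -/
abbrev AA : Type := QuadraticAlgebra ℤ[X] (X ^ 3) 0

theorem mem_intK_AA (K : Type v) [Field K] [Algebra ℤ[X] K] [IsFractionRing ℤ[X] K] (f : K[X]) :
    f ∈ IntK ℤ[X] K AA ↔ f ∈ lifts (algebraMap ℤ[X] K) := by
  constructor
  · intro hf
    exact int_ZX K f (eval_mem_of_mem ℤ[X] K AA (intK_subset _ _ _ hf))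
  · intro hf a
    obtain ⟨g, rfl⟩ := (mem_lifts _).1 hf
    refine ⟨aeval a g, ?_⟩
    change inc ℤ[X] K AA (aeval a g) = _
    rw [aeval_map_algebraMap, aeval_algHom_apply]

theorem closed_AA (K : Type v) [Field K] [Algebra ℤ[X] K] [IsFractionRing ℤ[X] K] :
    IsIntegrallyClosed (IntK ℤ[X] K AA) := by
  have hinj := IsFractionRing.injective ℤ[X] K
  let φ : (ℤ[X])[X] →+* IntK ℤ[X] K AA :=
    (mapRingHom (algebraMap ℤ[X] K)).codRestrict (IntK ℤ[X] K AA)
      (fun p => (mem_intK_AA K _).2 ((mem_lifts _).2 ⟨p, rfl⟩))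
  have hφ : Function.Bijective φ := by
    constructor
    · intro p q hpq
      have h1 := congrArg Subtype.val hpq
      exact map_injective _ hinj h1
    · rintro ⟨f, hf⟩
      obtain ⟨g, hg⟩ := (mem_lifts _).1 ((mem_intK_AA K f).1 hf)
      exact ⟨g, Subtype.ext hg⟩
  exact IsIntegrallyClosed.of_equiv (RingEquiv.ofBijective φ hφ)

theorem exists_bad (K : Type v) [Field K] [Algebra ℤ[X] K] [IsFractionRing ℤ[X] K] :
    ∃ b ∈ APrime ℤ[X] K AA, b ∉ Set.range (inc ℤ[X] K AA) := by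
  have hinj := IsFractionRing.injective ℤ[X] K
  set t : K := algebraMap ℤ[X] K X with ht
  have ht0 : t ≠ 0 := by
    rw [ht, Ne, map_eq_zero_iff _ hinj]
    exact X_ne_zero
  set ω : AA := ⟨0, 1⟩ with hω
  have hω2 : ω * ω = algebraMap ℤ[X] AA (X ^ 3) := by
    rw [QuadraticAlgebra.algebraMap_eq]
    apply QuadraticAlgebra.ext
    · simp [hω]
    · simp [hω]
  refine ⟨t⁻¹ ⊗ₜ[ℤ[X]] ω, ?_, ?_⟩
  · change IsIntegral ℤ[X] _
    refine ⟨X ^ 2 - C X, monic_X_pow_sub_C _ two_ne_zero, ?_⟩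
    rw [eval₂_sub, eval₂_pow, eval₂_X, eval₂_C, sub_eq_zero, sq,
      Algebra.TensorProduct.tmul_mul_tmul, hω2, Algebra.TensorProduct.algebraMap_apply,
      Algebra.algebraMap_eq_smul_one (R := ℤ[X]) (A := AA), TensorProduct.tmul_smul,
      TensorProduct.smul_tmul', Algebra.smul_def, map_pow]
    congr 1
    rw [← ht]
    field_simp
  · rintro ⟨a, ha⟩
    have h1 : inc ℤ[X] K AA ((X : ℤ[X]) • a) = inc ℤ[X] K AA ω := by
      rw [map_smul, ha, TensorProduct.smul_tmul', Algebra.smul_def, mul_inv_cancel₀ ht0]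
      rfl
    have h2 := inc_injective ℤ[X] K AA h1
    have h3 := congrArg QuadraticAlgebra.im h2
    have h4 : (X : ℤ[X]) * a.im = 1 := by simpa [hω] using h3
    exact not_isUnit_X (IsUnit.of_mul_eq_one _ h4)

end Pool.Agent.V113.IntK
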