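import Pool.Agent.V113.IntK.Main

set_option autoImplicit false

open Polynomial TensorProduct

namespace Pool.Agent.V113.IntK

/-- `Int_K(A') = {f ∈ K[X] : f(A') ⊆ A'}`. -/
def IntKPrimePrime (D K A : Type) [CommRing D] [Field K] [Algebra D K] [Ring A] [Algebra D A] :
    Set K[X] := {f | ∀ b ∈ APrime D K A, aeval b f ∈ APrime D K A}

/-- `Ω_S`: the roots in the algebraic closure of `K` of the minimal polynomials over `K` of the
elements of `S ⊆ K ⊗[D] A`. -/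
def Omega (D K A : Type) [CommRing D] [Field K] [Algebra D K] [Ring A] [Algebra D A]
    (S : Set (K ⊗[D] A)) : Set (AlgebraicClosure K) :=
  {x | ∃ b ∈ S, aeval x (minpoly K b) = 0}

theorem exists_int_pow_dvd {O : Type} [CommRing O] (p q θ : O) (hpq : p * q = 2)
    (hq : q = 1 + p * θ) (h : ∀ x : O, ∃ (n : ℤ) (y : O), x = n + p * y) (k : ℕ) (x : O) :
    ∃ m : ℤ, p ^ k ∣ x - m := by
  have hqk : ∀ k : ℕ, ∃ θk, q ^ k = 1 + p * θk := by
    intro k
    induction k with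
    | zero => exact ⟨0, by simp⟩
    | succ k ih =>
      obtain ⟨t, ht⟩ := ih
      refine ⟨θ + t + p * θ * t, ?_⟩
      rw [pow_succ, ht]
      nth_rewrite 1 [hq]
      ring
  induction k with
  | zero => exact ⟨0, by simp⟩
  | succ k ih =>
    obtain ⟨m, η, hm⟩ := ih
    obtain ⟨n, η', hη⟩ := h η
    obtain ⟨t, ht⟩ := hqk k
    refine ⟨m + 2 ^ k * n, η' - t * n, ?_⟩
    have h2 : (2 : O) ^ k = p ^ k * (1 + p * t) := by rw [← ht, ← mul_pow, hpq]
    push_cast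
    have hx : x = m + p ^ k * (n + p * η') := by
      rw [← hη]
      linear_combination hm
    rw [h2, hx]
    ring

/-- `A = ℤ[√17]`. -/
abbrev A17 : Type := QuadraticAlgebra ℤ 17 0
/-- `O = ℤ[ω]`, `ω² = 4 + ω`, the ring of integers of `ℚ(√17)`. -/
abbrev O17 : Type := QuadraticAlgebra ℤ 4 1
/-- `B = ℚ ⊗ ℤ[√17]`. -/
abbrev B17 : Type := ℚ ⊗[ℤ] A17

theorem O17re1 : (1 : O17).re = 1 := rfl
theorem O17im1 : (1 : O17).im = 0 := rfl
theorem O17re2 : (2 : O17).re = 2 := rfl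
theorem O17im2 : (2 : O17).im = 0 := rfl
theorem O17re3 : (3 : O17).re = 3 := rfl
theorem O17im3 : (3 : O17).im = 0 := rfl

/-- `√17` in `B`. -/
noncomputable def sB : B17 := inc ℤ ℚ A17 ⟨0, 1⟩

theorem sB_sq : sB * sB = 17 := by
  unfold sB
  rw [← map_mul]
  have : (⟨0, 1⟩ * ⟨0, 1⟩ : A17) = 17 := by
    apply QuadraticAlgebra.ext <;> simp <;> rfl
  rw [this, map_ofNat]

theorem inc_eq (a : A17) : inc ℤ ℚ A17 a = algebraMap ℚ B17 a.re + algebraMap ℚ B17 a.im * sB := by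
  have h1 : a = algebraMap ℤ A17 a.re + algebraMap ℤ A17 a.im * ⟨0, 1⟩ := by
    apply QuadraticAlgebra.ext <;> simp
  conv_lhs => rw [h1]
  rw [map_add, map_mul, AlgHom.commutes, AlgHom.commutes, IsScalarTower.algebraMap_apply ℤ ℚ B17,
    IsScalarTower.algebraMap_apply ℤ ℚ B17]
  rfl

theorem exists_rep (b : B17) : ∃ x y : ℚ, b = algebraMap ℚ B17 x + algebraMap ℚ B17 y * sB := by
  induction b using TensorProduct.induction_on with
  | zero => exact ⟨0, 0, by simp⟩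
  | tmul q a =>
    refine ⟨q * a.re, q * a.im, ?_⟩
    have h1 : q ⊗ₜ[ℤ] a = algebraMap ℚ B17 q * inc ℤ ℚ A17 a := by
      rw [Algebra.TensorProduct.algebraMap_apply, Algebra.TensorProduct.includeRight_apply,
        Algebra.TensorProduct.tmul_mul_tmul]
      simp
    rw [h1, inc_eq, map_mul, map_mul]
    ring
  | add b c hb hc =>
    obtain ⟨x, y, h1⟩ := hb
    obtain ⟨x', y', h2⟩ := hc
    refine ⟨x + x', y + y', ?_⟩
    rw [h1, h2, map_add, map_add]
    ring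

/-- The conjugation of `B`. -/
noncomputable def conjA : A17 →ₐ[ℤ] A17 :=
  QuadraticAlgebra.lift ⟨(⟨0, -1⟩ : A17), by apply QuadraticAlgebra.ext <;> simp <;> rfl⟩

noncomputable def conjB : B17 →ₐ[ℚ] B17 := Algebra.TensorProduct.map (AlgHom.id ℚ ℚ) conjA

theorem conjB_sB : conjB sB = - sB := by
  unfold conjB sB
  rw [Algebra.TensorProduct.includeRight_apply, Algebra.TensorProduct.map_tmul, map_one,
    ← TensorProduct.tmul_neg]
  congr 1

instance : Nontrivial B17 := tensor_nontrivial ℤ ℚ A17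

theorem int_of_integral {x : ℚ} (h : IsIntegral ℤ (algebraMap ℚ B17 x)) : ∃ n : ℤ, x = n := by
  rw [isIntegral_algebraMap_iff (algebraMap ℚ B17).injective] at h
  obtain ⟨y, hy⟩ := IsIntegrallyClosed.isIntegral_iff.1 h
  exact ⟨y, hy.symm⟩

/-- `ω = (1 + √17)/2`. -/
noncomputable def wB : B17 := algebraMap ℚ B17 (1 / 2) * (1 + sB)

theorem wB_sq : wB * wB = 4 + wB := by
  unfold wB
  have h1 : algebraMap ℚ B17 (1 / 2) * algebraMap ℚ B17 (1 / 2) = algebraMap ℚ B17 (1 / 4) := by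
    rw [← map_mul]; norm_num
  have h2 : algebraMap ℚ B17 (1 / 2) = 2 * algebraMap ℚ B17 (1 / 4) := by
    rw [← map_ofNat (algebraMap ℚ B17) 2, ← map_mul]; norm_num
  have h3 : 4 * algebraMap ℚ B17 (1 / 4) = 1 := by
    rw [← map_ofNat (algebraMap ℚ B17) 4, ← map_mul, ← map_one (algebraMap ℚ B17)]; norm_num
  linear_combination (1 + sB) ^ 2 * h1 - (1 + sB) * h2 + algebraMap ℚ B17 (1 / 4) * sB_sq + 4 * h3

/-- `J : O → B`. -/
noncomputable def J : O17 →ₐ[ℤ] B17 :=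
  QuadraticAlgebra.lift ⟨wB, by rw [wB_sq]; simp⟩

theorem J_apply (o : O17) : J o = o.re + o.im * wB := by
  unfold J
  rw [QuadraticAlgebra.lift_apply_apply]
  simp

theorem J_integral (o : O17) : IsIntegral ℤ (J o) := (IsIntegral.of_finite ℤ o).map J

theorem exists_J_of_integral (b : B17) (hb : IsIntegral ℤ b) : ∃ o, J o = b := by
  obtain ⟨x, y, rfl⟩ := exists_rep b
  have hc : IsIntegral ℤ (conjB (algebraMap ℚ B17 x + algebraMap ℚ B17 y * sB)) :=
    hb.map (conjB.restrictScalars ℤ)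
  have hc' : conjB (algebraMap ℚ B17 x + algebraMap ℚ B17 y * sB) =
      algebraMap ℚ B17 x - algebraMap ℚ B17 y * sB := by
    rw [map_add, map_mul, AlgHom.commutes, AlgHom.commutes, conjB_sB]
    ring
  rw [hc'] at hc
  have h1 := hb.add hc
  have h2 := hb.mul hc
  have e1 : algebraMap ℚ B17 x + algebraMap ℚ B17 y * sB +
      (algebraMap ℚ B17 x - algebraMap ℚ B17 y * sB) = algebraMap ℚ B17 (2 * x) := by
    rw [map_mul, map_ofNat]
    ring
  have e2 : (algebraMap ℚ B17 x + algebraMap ℚ B17 y * sB) *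
      (algebraMap ℚ B17 x - algebraMap ℚ B17 y * sB) = algebraMap ℚ B17 (x ^ 2 - 17 * y ^ 2) := by
    rw [map_sub, map_mul, map_ofNat, map_pow, map_pow]
    linear_combination -(algebraMap ℚ B17 y) ^ 2 * sB_sq
  rw [e1] at h1
  rw [e2] at h2
  obtain ⟨u, hu⟩ := int_of_integral h1
  obtain ⟨n, hn⟩ := int_of_integral h2
  have h3 : (34 * y) ^ 2 = ((17 * (u ^ 2 - 4 * n) : ℤ) : ℚ) := by
    push_cast
    rw [← hu, ← hn]
    ring
  have h4 : IsIntegral ℤ (34 * y) := by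
    refine ⟨X ^ 2 - C (17 * (u ^ 2 - 4 * n)), monic_X_pow_sub_C _ two_ne_zero, ?_⟩
    rw [eval₂_sub, eval₂_pow, eval₂_X, eval₂_C, h3, sub_eq_zero]
    rfl
  obtain ⟨w, hw⟩ := IsIntegrallyClosed.isIntegral_iff.1 h4
  have hw' : (w : ℚ) = 34 * y := hw
  have h5 : w ^ 2 = 17 * (u ^ 2 - 4 * n) := by
    have : ((w ^ 2 : ℤ) : ℚ) = ((17 * (u ^ 2 - 4 * n) : ℤ) : ℚ) := by
      rw [← h3, ← hw']
      push_cast
      ring
    exact_mod_cast this
  have h6 : (17 : ℤ) ∣ w := by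
    have hp : Prime (17 : ℤ) := by norm_num
    exact hp.dvd_of_dvd_pow (Dvd.intro _ h5.symm)
  obtain ⟨v, rfl⟩ := h6
  have h7 : 17 * v ^ 2 = u ^ 2 - 4 * n := by nlinarith
  have h8 : Even (u - v) := by
    have h9 : Even (u ^ 2 - 17 * v ^ 2) := ⟨2 * n, by linarith⟩
    rw [Int.even_sub, Int.even_mul, Int.even_pow' two_ne_zero, Int.even_pow' two_ne_zero] at h9
    rw [Int.even_sub]
    have h10 : ¬ Even (17 : ℤ) := by decide
    tauto
  obtain ⟨k, hk⟩ := h8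
  refine ⟨⟨k, v⟩, ?_⟩
  have hy : y = (v : ℚ) / 2 := by
    push_cast at hw'
    linarith
  have hx : x = (k : ℚ) + v / 2 := by
    have : (u : ℚ) = v + (k + k) := by
      have : u = v + (k + k) := by linarith
      exact_mod_cast this
    linarith
  rw [J_apply, hy, hx]
  have e3 : algebraMap ℚ B17 ((v : ℚ) / 2) = (v : B17) * algebraMap ℚ B17 (1 / 2) := by
    rw [← map_intCast (algebraMap ℚ B17) v, ← map_mul]
    congr 1
    ring
  rw [map_add, map_intCast, e3]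
  unfold wB
  ring

theorem mul_cancel_ne {r : ℚ} (hr : r ≠ 0) {b : B17} (h : algebraMap ℚ B17 r * b = 0) : b = 0 := by
  have h1 : algebraMap ℚ B17 r⁻¹ * (algebraMap ℚ B17 r * b) = 0 := by rw [h, mul_zero]
  rwa [← mul_assoc, ← map_mul, inv_mul_cancel₀ hr, map_one, one_mul] at h1

theorem nat_cancel {n : ℕ} (hn : n ≠ 0) {b : B17} (h : (n : B17) * b = 0) : b = 0 := by
  apply mul_cancel_ne (r := n) (by exact_mod_cast hn)
  rwa [map_natCast]

theorem inc_eq_J (a : A17) : inc ℤ ℚ A17 a = J ⟨a.re - a.im, 2 * a.im⟩ := by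
  rw [J_apply, inc_eq]
  have h1 : algebraMap ℚ B17 (1 / 2) * 2 = 1 := by
    rw [← map_ofNat (algebraMap ℚ B17) 2, ← map_mul, ← map_one (algebraMap ℚ B17)]; norm_num
  unfold wB
  simp only [map_intCast]
  push_cast
  linear_combination -(a.im : B17) * (1 + sB) * h1

theorem density (f : ℚ[X]) (hf : ∀ a : A17, ∃ o, J o = aeval (inc ℤ ℚ A17 a) f) (o₀ : O17) :
    ∃ o, J o = aeval (J o₀) f := by
  obtain ⟨n, hn, g, hg⟩ : ∃ n : ℕ, n ≠ 0 ∧ ∃ g : ℤ[X],
      ∀ o : O17, J (aeval o g) = n * aeval (J o) f := by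
    obtain ⟨b, hbm, hb⟩ := IsLocalization.integerNormalization_spec (nonZeroDivisors ℤ) f
    have hb0 : b ≠ 0 := nonZeroDivisors.ne_zero hbm
    refine ⟨b.natAbs, Int.natAbs_ne_zero.2 hb0,
      C (Int.sign b) * IsLocalization.integerNormalization (nonZeroDivisors ℤ) f, ?_⟩
    intro o
    rw [← aeval_algHom_apply, map_mul, aeval_C, ← aeval_map_algebraMap ℚ (J o), hb]
    have h1 : ((b.natAbs : ℤ) : B17) = ((Int.sign b * b : ℤ) : B17) := by
      rw [Int.sign_mul_self_eq_natAbs]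
    rw [Int.cast_natCast] at h1
    rw [h1, map_zsmul, zsmul_eq_mul]
    push_cast
    rw [eq_intCast (algebraMap ℤ B17)]
    ring
  obtain ⟨r, M, hM, hnM⟩ := Nat.exists_eq_two_pow_mul_odd hn
  have hM0 : M ≠ 0 := by
    rintro rfl
    simp at hM
  set z := aeval (J o₀) f with hz
  have hdiff : ∀ o : O17, ∃ h, (n : B17) * (z - aeval (J o) f) = J ((o₀ - o) * h) := by
    intro o
    obtain ⟨h, hh⟩ := sub_dvd_eval_sub o₀ o (g.map (algebraMap ℤ O17))
    refine ⟨h, ?_⟩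
    rw [← hh, eval_map_algebraMap, eval_map_algebraMap, map_sub, hg, hg]
    ring
  -- the odd part
  have h1 : ∃ o, J o = J (2 ^ r) * z := by
    obtain ⟨c, hc⟩ := hM
    have ha : inc ℤ ℚ A17 ⟨(2 * c + 2) * o₀.re + (c + 1) * o₀.im, (c + 1) * o₀.im⟩ =
        J ((M + 1) * o₀) := by
      rw [inc_eq_J]
      congr 1
      have hM1 : ((M : O17) + 1) = ((2 * c + 2 : ℤ) : O17) := by
        rw [hc]
        push_cast
        ring
      rw [hM1]
      apply QuadraticAlgebra.ext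
      · simp [O17re2, O17im2]
      · simp [O17re2, O17im2]
        ring
    obtain ⟨o₁, ho₁⟩ := hf ⟨(2 * c + 2) * o₀.re + (c + 1) * o₀.im, (c + 1) * o₀.im⟩
    rw [ha] at ho₁
    obtain ⟨h, hh⟩ := hdiff ((M + 1) * o₀)
    rw [← ho₁] at hh
    refine ⟨2 ^ r * o₁ - o₀ * h, ?_⟩
    have h2 : (M : B17) * (J (2 ^ r) * z - J (2 ^ r * o₁ - o₀ * h)) = 0 := by
      have h3 : J ((o₀ - (M + 1) * o₀) * h) = - (M * (J o₀ * J h)) := by
        rw [map_mul, map_sub, map_mul, map_add, map_natCast, map_one]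
        ring
      rw [h3] at hh
      rw [map_sub, map_mul, map_mul, map_pow, map_ofNat]
      rw [hnM] at hh
      push_cast at hh
      linear_combination hh
    exact (sub_eq_zero.1 (nat_cancel hM0 h2)).symm
  have h2 : ∀ p q θ : O17, p * q = 2 → q = 1 + p * θ →
      (∀ x : O17, ∃ (k : ℤ) (y : O17), x = k + p * y) → ∃ o, J o = J (q ^ r * M) * z := by
    intro p q θ hpq hq hx
    obtain ⟨m, η, hη⟩ := exists_int_pow_dvd p q θ hpq hq hx r o₀
    obtain ⟨o₂, ho₂⟩ := hf (m : A17)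
    have ha : inc ℤ ℚ A17 (m : A17) = J m := by
      rw [map_intCast, map_intCast]
    rw [ha] at ho₂
    obtain ⟨h, hh⟩ := hdiff m
    rw [← ho₂, hη] at hh
    refine ⟨q ^ r * M * o₂ + η * h, ?_⟩
    have h3 : ((2 ^ r : ℕ) : B17) * (J (q ^ r * M) * z - J (q ^ r * M * o₂ + η * h)) = 0 := by
      have h4 : ((2 ^ r : ℕ) : B17) = J q ^ r * J p ^ r := by
        rw [← mul_pow, ← map_mul, mul_comm q p, hpq, map_ofNat]
        push_cast
        rfl
      have h5 : (n : B17) = J q ^ r * J p ^ r * M := by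
        rw [hnM, Nat.cast_mul, h4]
      rw [h5, map_mul, map_mul, map_pow] at hh
      rw [h4, map_add, map_mul, map_mul, map_mul, map_mul, map_pow, map_natCast]
      linear_combination J q ^ r * hh
    exact (sub_eq_zero.1 (nat_cancel (by positivity) h3)).symm
  -- the two primes over `2`
  have hπ : ∃ o, J o = J ((⟨3, -1⟩ : O17) ^ r * M) * z := by
    refine h2 ⟨2, 1⟩ ⟨3, -1⟩ ⟨5, -2⟩ ?_ ?_ ?_
    · apply QuadraticAlgebra.ext <;> simp <;> rfl
    · apply QuadraticAlgebra.ext <;> simp [O17re1, O17im1]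
    · intro x
      refine ⟨x.re - 2 * x.im, ⟨x.im, 0⟩, ?_⟩
      apply QuadraticAlgebra.ext
      · simp [O17re2, O17im2]
      · simp [O17re2, O17im2]
  have hπ' : ∃ o, J o = J ((⟨2, 1⟩ : O17) ^ r * M) * z := by
    refine h2 ⟨3, -1⟩ ⟨2, 1⟩ ⟨3, 2⟩ ?_ ?_ ?_
    · apply QuadraticAlgebra.ext <;> simp <;> rfl
    · apply QuadraticAlgebra.ext <;> simp [O17re1, O17im1]
    · intro x
      refine ⟨x.re + 3 * x.im, ⟨-x.im, 0⟩, ?_⟩
      apply QuadraticAlgebra.ext
      · simp [O17re3, O17im3]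
      · simp [O17re3, O17im3]
  have hcop : IsCoprime (⟨3, -1⟩ : O17) ⟨2, 1⟩ := by
    refine ⟨1, ⟨-5, 2⟩, ?_⟩
    apply QuadraticAlgebra.ext <;> simp [O17re1, O17im1]
  obtain ⟨a, b, hab⟩ := hcop.pow (m := r) (n := r)
  have hcop2 : IsCoprime (M : ℤ) (2 ^ r) := by
    apply IsCoprime.pow_right
    rw [Int.isCoprime_iff_gcd_eq_one]
    have : Nat.Coprime M 2 := Nat.coprime_two_right.2 hM
    exact_mod_cast this
  obtain ⟨c, d, hcd⟩ := hcop2
  obtain ⟨o₁, ho₁⟩ := h1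
  obtain ⟨o₂, ho₂⟩ := hπ
  obtain ⟨o₃, ho₃⟩ := hπ'
  refine ⟨c * (a * o₂ + b * o₃) + d * o₁, ?_⟩
  have e1 : (c : O17) * M + d * 2 ^ r = 1 := by exact_mod_cast congrArg (Int.cast : ℤ → O17) hcd
  have e2 : J ((c * (a * ((⟨3, -1⟩ : O17) ^ r * M) + b * ((⟨2, 1⟩ : O17) ^ r * M)) +
      d * 2 ^ r)) = 1 := by
    rw [← map_one J]
    congr 1
    linear_combination (c : O17) * M * hab + e1
  simp only [map_add, map_mul, map_pow] at e2 ho₁ ho₂ ho₃ ⊢
  rw [ho₁, ho₂, ho₃]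
  linear_combination z * e2

theorem mem_APrime_iff (b : B17) : b ∈ APrime ℤ ℚ A17 ↔ ∃ o, J o = b :=
  ⟨exists_J_of_integral b, fun ⟨o, ho⟩ => ho ▸ J_integral o⟩

theorem intKPrime_eq : IntKPrime ℤ ℚ A17 = IntKPrimePrime ℤ ℚ A17 := by
  apply Set.Subset.antisymm
  · intro f hf b hb
    obtain ⟨o, rfl⟩ := exists_J_of_integral b hb
    rw [mem_APrime_iff]
    exact density f (fun a => (mem_APrime_iff _).1 (hf a)) o
  · intro f hf a
    apply hf
    exact (IsIntegral.of_finite ℤ a).map (inc ℤ ℚ A17)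

theorem not_sq_seventeen (q : ℚ) (hq : q ^ 2 = 17) : False := by
  have h1 : IsIntegral ℤ q := by
    refine ⟨X ^ 2 - C 17, monic_X_pow_sub_C _ two_ne_zero, ?_⟩
    rw [eval₂_sub, eval₂_pow, eval₂_X, eval₂_C, hq]
    simp
  obtain ⟨m, hm⟩ := IsIntegrallyClosed.isIntegral_iff.1 h1
  have hm' : (m : ℚ) = q := hm
  have h2 : m ^ 2 = 17 := by
    rw [← hm'] at hq
    exact_mod_cast hq
  have h3 : m < 5 := by nlinarith
  have h4 : -5 < m := by nlinarith
  interval_cases m <;> omega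

theorem exists_omega : ∃ x ∈ Omega ℤ ℚ A17 (APrime ℤ ℚ A17),
    x ∉ Omega ℤ ℚ A17 (Set.range (inc ℤ ℚ A17)) := by
  have hw : IsIntegral ℤ wB := by
    have := J_integral ⟨0, 1⟩
    rw [J_apply] at this
    simpa using this
  have hwQ : IsIntegral ℚ wB := hw.tower_top
  obtain ⟨x, hx⟩ := IsAlgClosed.exists_aeval_eq_zero (AlgebraicClosure ℚ) (minpoly ℚ wB)
    (minpoly.degree_pos hwQ).ne'
  have hx2 : x ^ 2 = x + 4 := by
    have h1 : minpoly ℚ wB ∣ X ^ 2 - X - 4 := by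
      apply minpoly.dvd
      rw [map_sub, map_sub, map_pow, aeval_X, map_ofNat]
      linear_combination wB_sq
    obtain ⟨g, hg⟩ := h1
    have h2 := congrArg (aeval x) hg
    rw [map_mul, hx, zero_mul, map_sub, map_sub, map_pow, aeval_X, map_ofNat] at h2
    linear_combination h2
  refine ⟨x, ⟨wB, hw, hx⟩, ?_⟩
  rintro ⟨b, ⟨a, rfl⟩, hb⟩
  have hx3 : x ^ 2 - 2 * (a.re : AlgebraicClosure ℚ) * x + (a.re ^ 2 - 17 * a.im ^ 2 : ℤ) = 0 := by
    have h1 : minpoly ℚ (inc ℤ ℚ A17 a) ∣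
        X ^ 2 - C (2 * (a.re : ℚ)) * X + C ((a.re ^ 2 - 17 * a.im ^ 2 : ℤ) : ℚ) := by
      apply minpoly.dvd
      rw [map_add, map_sub, map_mul, map_pow, aeval_X, aeval_C, aeval_C, inc_eq]
      push_cast
      simp only [map_intCast, map_ofNat]
      linear_combination (a.im : B17) ^ 2 * sB_sq
    obtain ⟨g, hg⟩ := h1
    have h2 : aeval x (X ^ 2 - C (2 * (a.re : ℚ)) * X + C ((a.re ^ 2 - 17 * a.im ^ 2 : ℤ) : ℚ)) =
        0 := by
      have hb' : aeval x (minpoly ℚ (inc ℤ ℚ A17 a)) = 0 := hb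
      rw [hg, map_mul, hb', zero_mul]
    rw [map_add, map_sub, map_mul, map_pow, aeval_X, aeval_C, aeval_C] at h2
    simpa using h2
  have hu : (2 * (a.re : ℚ) - 1) ≠ 0 := by
    intro h
    have h1 : 2 * a.re - 1 = 0 := by exact_mod_cast h
    omega
  set q : ℚ := (4 + (a.re ^ 2 - 17 * a.im ^ 2 : ℤ)) / (2 * (a.re : ℚ) - 1) with hq
  have hxq : x = (q : AlgebraicClosure ℚ) := by
    have hu' : (2 * (a.re : AlgebraicClosure ℚ) - 1) ≠ 0 := by
      exact_mod_cast hu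
    rw [hq]
    push_cast
    rw [eq_div_iff hu']
    push_cast at hx3
    linear_combination hx2 - hx3
  rw [hxq] at hx2
  have h5 : q ^ 2 = q + 4 := by exact_mod_cast hx2
  exact not_sq_seventeen (2 * q - 1) (by linear_combination 4 * h5)

end Pool.Agent.V113.IntK
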